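import Pool.Agent.Helper74.CO.Goals2

/-!
# Project CO, stage 2, packet WALL: the Welch arrays are good without exceptions
-/

set_option autoImplicit false

namespace Pool.Agent.Helper16.CO

open Finset Pool.Agent.Helper74.CO

theorem card_Xw (p : ℕ) [Fact p.Prime] (e v : ZMod p) : (p : ℝ) - 3 ≤ #(Xw e v) := by
  have h1 : (univ : Finset (ZMod p)) \ {0, v, e} ⊆ Xw e v := by
    intro x hx
    simp only [mem_sdiff, mem_univ, true_and, mem_insert, mem_singleton, not_or] at hx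
    simp only [Xw, mem_filter, mem_univ, true_and]
    exact hx
  have h2 := card_le_card h1
  have h3 := le_card_sdiff ({0, v, e} : Finset (ZMod p)) (univ : Finset (ZMod p))
  rw [card_univ, ZMod.card] at h3
  have h4 : #({0, v, e} : Finset (ZMod p)) ≤ 3 := card_le_three
  have h5 : p ≤ #(Xw e v) + 3 := by omega
  have h6 : (p : ℝ) ≤ #(Xw e v) + 3 := by exact_mod_cast h5
  linarith

theorem key (hWSOL : WSOL) (hIND : IND) (hTRF : TRF) (hWINV : WINV) {K : ℕ} {κ η₀ ε₀ : ℝ}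
    (hη : 0 < η₀) (B4 : Bump4 K κ η₀ ε₀) (p : ℕ) [Fact p.Prime] (g c : ZMod p) (h5 : 5 ≤ p)
    (hg : Gen g) (hc : c ≠ 0) (u v : ℤ) (hve : (v : ZMod p) ≠ c * g ^ u)
    (hab : Eq2 (Xw (c * g ^ u) (v : ZMod p)) (aw p g c)
      (fun x => aw p g c (Mw (c * g ^ u) (v : ZMod p) x)) K κ)
    (hac : Eq2 (Xw (c * g ^ u) (v : ZMod p)) (aw p g c) (cw p) K κ)
    (had : Eq2 (Xw (c * g ^ u) (v : ZMod p)) (aw p g c)
      (fun x => cw p (Mw (c * g ^ u) (v : ZMod p) x)) K κ)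
    (hcd : Eq2 (Xw (c * g ^ u) (v : ZMod p)) (cw p)
      (fun x => cw p (Mw (c * g ^ u) (v : ZMod p) x)) K κ)
    (hu1 : -ε₀ * (p - 1 : ℕ) ≤ u) (hu2 : (u : ℝ) ≤ (1 + ε₀) * (p - 1 : ℕ))
    (hv1 : -ε₀ * p ≤ v) (hv2 : (v : ℝ) ≤ (1 + ε₀) * p) :
    η₀ / 2 * (p - 1 : ℕ) ≤ #(sols (Wa p g c) (u, v)) := by
  have hcard : Fintype.card (ZMod p) = p := ZMod.card p
  obtain ⟨g0, _, gind, _⟩ := hIND (ZMod p) g hg (by omega)
  rw [hcard] at gind
  have he : c * g ^ u ≠ 0 := mul_ne_zero hc (zpow_ne_zero _ g0)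
  have hcast : ((p - 1 : ℕ) : ℝ) = (p : ℝ) - 1 := by
    rw [Nat.cast_sub (by omega), Nat.cast_one]
  have hp1 : (0 : ℝ) < (p : ℝ) - 1 := by
    have : (5 : ℝ) ≤ p := by exact_mod_cast h5
    linarith
  have hp0 : (0 : ℝ) < (p : ℝ) := by linarith
  rw [hcast] at hu1 hu2 ⊢
  have haw : ∀ y : ZMod p, y ≠ 0 → 0 ≤ aw p g c y ∧ aw p g c y < 1 := by
    intro y hy
    have h1 := (gind (y / c) (div_ne_zero hy hc)).2
    have h2 : ((ind g (y / c) : ℕ) : ℝ) < (p : ℝ) - 1 := by exact_mod_cast h1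
    unfold aw
    constructor
    · positivity
    · rw [div_lt_one hp1]
      exact h2
  have hcw : ∀ y : ZMod p, 0 ≤ cw p y ∧ cw p y < 1 := by
    intro y
    unfold cw
    constructor
    · positivity
    · rw [div_lt_one hp0]
      exact_mod_cast ZMod.val_lt y
  have hX : ∀ x ∈ Xw (c * g ^ u) (v : ZMod p), x ≠ 0 ∧ x ≠ (v : ZMod p) ∧ x ≠ c * g ^ u := by
    intro x hx
    simpa only [Xw, mem_filter, mem_univ, true_and] using hx
  have hM : ∀ x ∈ Xw (c * g ^ u) (v : ZMod p), Mw (c * g ^ u) (v : ZMod p) x ≠ 0 := by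
    intro x hx
    obtain ⟨_, h2, h3⟩ := hX x hx
    unfold Mw
    exact div_ne_zero (mul_ne_zero he (sub_ne_zero.2 h2)) (sub_ne_zero.2 h3)
  have hinv := hWINV (ZMod p) (c * g ^ u) (v : ZMod p) he hve
  have hbd : Eq2 (Xw (c * g ^ u) (v : ZMod p))
      (fun x => aw p g c (Mw (c * g ^ u) (v : ZMod p) x))
      (fun x => cw p (Mw (c * g ^ u) (v : ZMod p) x)) K κ :=
    (hTRF (ZMod p) (Xw (c * g ^ u) (v : ZMod p)) (Mw (c * g ^ u) (v : ZMod p)) (aw p g c)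
      (cw p) K κ hinv).1 hac
  have hbc : Eq2 (Xw (c * g ^ u) (v : ZMod p))
      (fun x => aw p g c (Mw (c * g ^ u) (v : ZMod p) x)) (cw p) K κ :=
    (hTRF (ZMod p) (Xw (c * g ^ u) (v : ZMod p)) (Mw (c * g ^ u) (v : ZMod p)) (aw p g c)
      (cw p) K κ hinv).2 had
  have h1 := B4 (ZMod p) (Xw (c * g ^ u) (v : ZMod p)) (aw p g c)
    (fun x => aw p g c (Mw (c * g ^ u) (v : ZMod p) x)) (cw p)
    (fun x => cw p (Mw (c * g ^ u) (v : ZMod p) x)) (u / ((p : ℝ) - 1)) (v / (p : ℝ))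
    (fun x hx => haw x (hX x hx).1) (fun x hx => haw _ (hM x hx)) (fun x _ => hcw x)
    (fun x _ => hcw _) hab hac had hbc hbd hcd
    (by rw [le_div_iff₀ hp1]; exact hu1) (by rw [div_le_iff₀ hp1]; exact hu2)
    (by rw [le_div_iff₀ hp0]; exact hv1) (by rw [div_le_iff₀ hp0]; exact hv2)
  have h2 := hWSOL p g c u v (by omega) hg hc hve
  have h3 : (#((Xw (c * g ^ u) (v : ZMod p)).filter (fun x =>
    (0 ≤ aw p g c x + aw p g c (Mw (c * g ^ u) (v : ZMod p) x) - u / ((p : ℝ) - 1) ∧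
      aw p g c x + aw p g c (Mw (c * g ^ u) (v : ZMod p) x) - u / ((p : ℝ) - 1) < 1) ∧
    (0 ≤ cw p x + cw p (Mw (c * g ^ u) (v : ZMod p) x) - v / (p : ℝ) ∧
      cw p x + cw p (Mw (c * g ^ u) (v : ZMod p) x) - v / (p : ℝ) < 1))) : ℝ) ≤
      #(sols (Wa p g c) (u, v)) := by exact_mod_cast h2
  have h4 := card_Xw p (c * g ^ u) (v : ZMod p)
  have h6 : η₀ * ((p : ℝ) - 3) ≤ η₀ * #(Xw (c * g ^ u) (v : ZMod p)) :=
    mul_le_mul_of_nonneg_left h4 hη.le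
  have h7 : (5 : ℝ) ≤ p := by exact_mod_cast h5
  have h8 : η₀ / 2 * ((p : ℝ) - 1) ≤ η₀ * ((p : ℝ) - 3) := by nlinarith
  exact h8.trans (h6.trans (h1.trans h3))

theorem t_WALL (hGOODW : GOODW) (hBUMP4 : BUMP4) (hWSOL : WSOL) (hTRF : TRF) (hWINV : WINV)
    (hWAB : WAB) (hWAC : WAC) (hWAD : WAD) (hWP : WP) (hIND : IND) : WALL := by
  classical
  obtain ⟨K, κ, η₀, ε₀, hκ, hη, hε, B4⟩ := hBUMP4
  obtain ⟨η₁, ε₁, C₁, N₁, hη₁, hε₁, hG⟩ := hGOODW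
  obtain ⟨q1, hq1⟩ := hWAB K κ hκ
  obtain ⟨q2, hq2⟩ := hWAC K κ hκ
  obtain ⟨q3, hq3⟩ := hWAD K κ hκ
  obtain ⟨q4, hq4⟩ := hWP K κ hκ
  refine ⟨min η₁ (η₀ / 2), ε₀, N₁ + q1 + q2 + q3 + q4 + 5, lt_min hη₁ (by positivity), hε, ?_⟩
  intro p _ g c hN hg hc
  have h5 : 5 ≤ p := by omega
  have hcard : Fintype.card (ZMod p) = p := ZMod.card p
  obtain ⟨g0, _, _, _⟩ := hIND (ZMod p) g hg (by omega)
  obtain ⟨w0, w1, w2, w3, w4, w5, _⟩ := hG p g c (by omega) hg hc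
  have he : ∀ u : ℤ, c * g ^ u ≠ 0 := fun u => mul_ne_zero hc (zpow_ne_zero _ g0)
  have hcast : ((p - 1 : ℕ) : ℝ) = (p : ℝ) - 1 := by
    rw [Nat.cast_sub (by omega), Nat.cast_one]
  have h5R : (5 : ℝ) ≤ p := by exact_mod_cast h5
  have hm0 : (0 : ℝ) ≤ ((p - 1 : ℕ) : ℝ) := Nat.cast_nonneg _
  refine ⟨w0, w1, w2, w3, w4, ?_, ?_⟩
  · intro u v hu1 hu2 hv
    exact (mul_le_mul_of_nonneg_right (min_le_left _ _) hm0).trans (w5 u v hu1 hu2 hv)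
  · intro S hS
    rw [Nat.le_zero, card_eq_zero]
    refine eq_empty_of_forall_notMem fun P hP => ?_
    obtain ⟨s1, s2, s3, s4, s5, s6⟩ := hS P hP
    have hve : (P.2 : ZMod p) ≠ c * g ^ P.1 := fun h => s1 h.symm
    have hk := key hWSOL hIND hTRF hWINV hη B4 p g c h5 hg hc P.1 P.2 hve
      (hq1 p g c (c * g ^ P.1) (P.2 : ZMod p) (by omega) hg hc (he P.1) hve)
      (hq2 p g c (c * g ^ P.1) (P.2 : ZMod p) (by omega) hg hc (he P.1))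
      (hq3 p g c (c * g ^ P.1) (P.2 : ZMod p) (by omega) hg hc (he P.1) hve)
      (hq4 p (c * g ^ P.1) (P.2 : ZMod p) (by omega) (he P.1) hve)
      s2 s3 (by rw [hcast] at s4; nlinarith) (by rw [hcast] at s5; nlinarith)
    have hk2 : min η₁ (η₀ / 2) * ((p - 1 : ℕ) : ℝ) ≤ η₀ / 2 * ((p - 1 : ℕ) : ℝ) :=
      mul_le_mul_of_nonneg_right (min_le_right _ _) hm0
    exact absurd s6 (not_lt.2 (hk2.trans hk))

end Pool.Agent.Helper16.CO
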